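import Pool.Agent.N798.S2.Stm
import Pool.Agent.N798.T.Stm

/-!
Project S2, PN (helper713): the prime number theorem with an error term, as a sum.
-/

set_option autoImplicit false

namespace Pool.Agent.N713.S2.PN

open Finset MeasureTheory Filter Topology

lemma log_tend : Tendsto (fun N : ℕ => Real.log (N:ℝ)) atTop atTop :=
  Real.tendsto_log_atTop.comp tendsto_natCast_atTop_atTop

lemma logK_div (K : ℕ) : Tendsto (fun N : ℕ => (Real.log (N:ℝ)) ^ K / N) atTop (𝓝 0) := by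
  have h := (Real.isLittleO_pow_log_id_atTop (n := K)).tendsto_div_nhds_zero
  exact h.comp (tendsto_natCast_atTop_atTop (R := ℝ))

lemma log_half {x : ℝ} (hx : 2 ≤ x) : 1 / 2 ≤ Real.log x := by
  have h1 := Real.log_le_log (by norm_num : (0:ℝ) < 2) hx
  have h2 := Real.log_two_gt_d9
  linarith

lemma sum_shift (f : ℕ → ℝ) {N N' : ℕ} (h : N ≤ N') :
    ∑ n ∈ Ioc N N', f n = ∑ n ∈ Ico N N', f (n + 1) := by
  induction N', h using Nat.le_induction with
  | base => simp
  | succ M hM ih => rw [sum_Ioc_succ_top hM, sum_Ico_succ_top hM, ih]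

lemma sum_tel (f : ℕ → ℝ) {N N' : ℕ} (h : N ≤ N') :
    ∑ n ∈ Ico N N', f n = ∑ n ∈ Ico N N', f (n + 1) + f N - f N' := by
  induction N', h using Nat.le_induction with
  | base => simp
  | succ M hM ih =>
    rw [sum_Ico_succ_top hM, sum_Ico_succ_top hM, ih]
    ring

/-- sum and integral of `1 / log` -/
lemma sum_int {N N' : ℕ} (hN : 2 ≤ N) (h : N ≤ N') :
    |∑ n ∈ Ioc N N', 1 / Real.log n - ∫ u in (N:ℝ)..N', 1 / Real.log u| ≤ 2 := by
  have hN' : (2:ℝ) ≤ N := by exact_mod_cast hN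
  have hanti : AntitoneOn (fun u : ℝ => 1 / Real.log u) (Set.Icc (N:ℝ) N') := by
    intro x hx y hy hxy
    have h1 := log_half (hN'.trans hx.1)
    have h2 := Real.log_le_log (by linarith [hx.1]) hxy
    exact one_div_le_one_div_of_le (by linarith) h2
  have h1 := AntitoneOn.integral_le_sum_Ico h hanti
  have h2 := AntitoneOn.sum_le_integral_Ico h hanti
  have h3 := sum_shift (fun n => 1 / Real.log n) h
  have h4 := sum_tel (fun n => 1 / Real.log n) h
  have h5 : 1 / Real.log N ≤ 2 := by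
    have := log_half hN'
    rw [div_le_iff₀ (by linarith)]
    linarith
  have h6 : 0 ≤ 1 / Real.log N' := by
    have := log_half (x := (N':ℝ)) (hN'.trans (by exact_mod_cast h))
    positivity
  rw [h3, abs_le]
  constructor <;> linarith

/-- the terms -/
noncomputable def dd (n : ℕ) : ℝ := (if n.Prime then (1:ℝ) else 0) - 1 / Real.log n

lemma bdd (K : ℕ) : ∃ M : ℝ, 0 ≤ M ∧ ∀ N : ℕ, (Real.log (N:ℝ)) ^ K / N ≤ M := by
  obtain ⟨M, hM⟩ := (logK_div K).bddAbove_range
  refine ⟨max M 0, le_max_right _ _, fun N => le_trans (hM ⟨N, rfl⟩) (le_max_left _ _)⟩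

lemma block (h : Pool.Agent.N798.T.Wt (fun n => if n.Prime then 1 else 0) 1) (K : ℕ) :
    ∃ C : ℝ, 0 ≤ C ∧ ∀ N N' : ℕ, 2 ≤ N → N ≤ N' → N' ≤ 2 * N →
      |∑ n ∈ Ioc N N', dd n| ≤ C * (N / (Real.log N) ^ K) := by
  obtain ⟨C, hC⟩ := h.mn K
  obtain ⟨M, hM0, hM⟩ := bdd K
  refine ⟨|C| + 2 * M, by positivity, fun N N' h1 h2 h3 => ?_⟩
  have hN : (2:ℝ) ≤ N := by exact_mod_cast h1
  have hl : 0 < Real.log (N:ℝ) := by linarith [log_half hN]
  have hq : 0 < (N:ℝ) / (Real.log N) ^ K := by positivity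
  have e1 := hC N N' h1 h2 h3
  have e2 : ‖∑ n ∈ Ioc N N', (if n.Prime then (1:ℂ) else 0) -
      ((∫ u in (N : ℝ)..N', 1 / (Real.log u) ^ 1 : ℝ) : ℂ)‖ =
      |∑ n ∈ Ioc N N', (if n.Prime then (1:ℝ) else 0) - ∫ u in (N : ℝ)..N', 1 / Real.log u| := by
    rw [← Real.norm_eq_abs, ← Complex.norm_real]
    congr 1
    push_cast
    simp only [pow_one]
    congr 1
    refine Finset.sum_congr rfl fun n _ => ?_
    split_ifs <;> simp
  rw [e2] at e1
  have e3 := sum_int h1 h2
  have e4 : ∑ n ∈ Ioc N N', dd n =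
      (∑ n ∈ Ioc N N', (if n.Prime then (1:ℝ) else 0) - ∫ u in (N : ℝ)..N', 1 / Real.log u) -
      (∑ n ∈ Ioc N N', 1 / Real.log n - ∫ u in (N:ℝ)..N', 1 / Real.log u) := by
    simp only [dd, Finset.sum_sub_distrib]
    ring
  have e5 : 1 ≤ M * (N / (Real.log N) ^ K) := by
    have := hM N
    rw [div_le_iff₀ (by linarith)] at this
    rw [← mul_div_assoc, le_div_iff₀ (by positivity)]
    linarith
  have e6 : C * N / (Real.log N) ^ K ≤ |C| * (N / (Real.log N) ^ K) := by
    rw [mul_div_assoc]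
    exact mul_le_mul_of_nonneg_right (le_abs_self C) hq.le
  rw [e4]
  refine (abs_sub _ _).trans ?_
  have : (|C| + 2 * M) * (N / (Real.log N) ^ K) =
      |C| * (N / (Real.log N) ^ K) + 2 * (M * (N / (Real.log N) ^ K)) := by ring
  rw [this]
  linarith

lemma halve (K : ℕ) : ∃ M0 : ℕ, 4 ≤ M0 ∧ ∀ M : ℕ, M0 ≤ M →
    (((M + 1) / 2 : ℕ) : ℝ) / (Real.log (((M + 1) / 2 : ℕ) : ℝ)) ^ K ≤
      2 / 3 * ((M : ℝ) / (Real.log M) ^ K) := by
  have h1 : Tendsto (fun N : ℕ => (1 + Real.log 2 / Real.log (N:ℝ)) ^ K) atTop (𝓝 1) := by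
    have := ((log_tend.const_div_atTop (Real.log 2)).const_add 1).pow K
    simpa using this
  obtain ⟨N1, hN1⟩ := eventually_atTop.1 (h1.eventually_le_const (by norm_num : (1:ℝ) < 5 / 4))
  refine ⟨2 * N1 + 15, by omega, fun M hM => ?_⟩
  obtain ⟨N, hN⟩ : ∃ N, N = (M + 1) / 2 := ⟨_, rfl⟩
  rw [← hN]
  have a1 : N1 ≤ N := by omega
  have a2 : 2 ≤ N := by omega
  have a3 : M ≤ 2 * N := by omega
  have a4 : 15 * N ≤ 8 * M := by omega
  have b2 : (2:ℝ) ≤ N := by exact_mod_cast a2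
  have b3 : (M:ℝ) ≤ 2 * N := by exact_mod_cast a3
  have b4 : 15 * (N:ℝ) ≤ 8 * M := by exact_mod_cast a4
  have bM : (2:ℝ) ≤ M := by
    have : 2 ≤ M := by omega
    exact_mod_cast this
  have hl : 0 < Real.log (N:ℝ) := by linarith [log_half b2]
  have hlM : 0 < Real.log (M:ℝ) := by linarith [log_half bM]
  have c1 : Real.log M ≤ Real.log N * (1 + Real.log 2 / Real.log N) := by
    have e : Real.log N * (1 + Real.log 2 / Real.log N) = Real.log (2 * N) := by
      rw [Real.log_mul (by norm_num) (by linarith)]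
      field_simp
      ring
    rw [e]
    exact Real.log_le_log (by linarith) b3
  have c2 : (Real.log M) ^ K ≤ (Real.log N) ^ K * (5 / 4) := by
    calc (Real.log M) ^ K ≤ (Real.log N * (1 + Real.log 2 / Real.log N)) ^ K :=
          pow_le_pow_left₀ hlM.le c1 K
      _ = (Real.log N) ^ K * (1 + Real.log 2 / Real.log N) ^ K := mul_pow _ _ _
      _ ≤ (Real.log N) ^ K * (5 / 4) := by
          have := hN1 N a1
          gcongr
  rw [← mul_div_assoc, div_le_div_iff₀ (by positivity) (by positivity)]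
  have c3 : (N:ℝ) * (Real.log M) ^ K ≤ N * ((Real.log N) ^ K * (5 / 4)) := by gcongr
  have c4 : 15 * (N:ℝ) * (Real.log N) ^ K ≤ 8 * M * (Real.log N) ^ K := by gcongr
  linarith

lemma big (h : Pool.Agent.N798.T.Wt (fun n => if n.Prime then 1 else 0) 1) (K : ℕ) :
    ∃ C : ℝ, 0 ≤ C ∧ ∀ M : ℕ, 2 ≤ M → |∑ n ∈ Icc 1 M, dd n| ≤ C * (M / (Real.log M) ^ K) := by
  obtain ⟨C, hC0, hC⟩ := block h K
  obtain ⟨M0, hM4, hM0⟩ := halve K
  obtain ⟨C3, hC3⟩ : ∃ C3 : ℝ, C3 = 2 * C +
    ∑ M ∈ range M0, |∑ n ∈ Icc 1 M, dd n| * |(Real.log M) ^ K / M| := ⟨_, rfl⟩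
  have hs : 0 ≤ ∑ M ∈ range M0, |∑ n ∈ Icc 1 M, dd n| * |(Real.log M) ^ K / M| :=
    Finset.sum_nonneg fun i _ => by positivity
  refine ⟨C3, by linarith, fun M => ?_⟩
  induction M using Nat.strong_induction_on with
  | _ M ih =>
    intro h2
    have b2 : (2:ℝ) ≤ M := by exact_mod_cast h2
    have hl : 0 < Real.log (M:ℝ) := by linarith [log_half b2]
    have hq : 0 < (M:ℝ) / (Real.log M) ^ K := by positivity
    by_cases hM : M < M0
    · have e1 := Finset.single_le_sum (f := fun M : ℕ => |∑ n ∈ Icc 1 M, dd n| * |(Real.log M) ^ K / M|)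
        (fun i _ => by positivity) (Finset.mem_range.2 hM)
      have e2 : |∑ n ∈ Icc 1 M, dd n| =
          |∑ n ∈ Icc 1 M, dd n| * |(Real.log M) ^ K / M| * (M / (Real.log M) ^ K) := by
        rw [abs_of_nonneg (by positivity : 0 ≤ (Real.log M) ^ K / M)]
        field_simp
      rw [e2]
      refine mul_le_mul_of_nonneg_right ?_ hq.le
      linarith
    · obtain ⟨N, hN⟩ : ∃ N, N = (M + 1) / 2 := ⟨_, rfl⟩
      have a0 : N < M := by omega
      have a2 : 2 ≤ N := by omega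
      have a3 : M ≤ 2 * N := by omega
      have e1 := hM0 M (by omega)
      rw [← hN] at e1
      have e2 := ih N a0 a2
      have e3 := hC N M a2 a0.le a3
      have e4 : ∑ n ∈ Icc 1 M, dd n = ∑ n ∈ Icc 1 N, dd n + ∑ n ∈ Ioc N M, dd n := by
        have : Icc 1 M = Icc 1 N ∪ Ioc N M := by
          ext n
          simp only [mem_Icc, mem_union, mem_Ioc]
          omega
        rw [this, Finset.sum_union]
        rw [Finset.disjoint_left]
        intro n hn hn'
        rw [mem_Icc] at hn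
        rw [mem_Ioc] at hn'
        omega
      rw [e4]
      have e5 := abs_add_le (∑ n ∈ Icc 1 N, dd n) (∑ n ∈ Ioc N M, dd n)
      have e6 : (C3 + C) * (N / (Real.log N) ^ K) ≤ (C3 + C) * (2 / 3 * (M / (Real.log M) ^ K)) :=
        mul_le_mul_of_nonneg_left e1 (by linarith)
      have e7 : (C3 + C) * (2 / 3) ≤ C3 := by linarith
      have e8 : (C3 + C) * (2 / 3) * (M / (Real.log M) ^ K) ≤ C3 * (M / (Real.log M) ^ K) :=
        mul_le_mul_of_nonneg_right e7 hq.le
      have e9 : (C3 + C) * (N / (Real.log N) ^ K) =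
        C3 * (N / (Real.log N) ^ K) + C * (N / (Real.log N) ^ K) := by ring
      linarith

theorem pn (h : Pool.Agent.N798.T.Wt (fun n => if n.Prime then 1 else 0) 1) :
    Pool.Agent.N798.S2.S_PN := by
  intro K
  obtain ⟨C, hC0, hC⟩ := big h (K + 1)
  have h1 := log_tend.const_div_atTop C
  refine squeeze_zero' ?_ ?_ h1
  · filter_upwards [eventually_ge_atTop 2] with N hN
    have : 0 ≤ Real.log (N:ℝ) := Real.log_nonneg (by exact_mod_cast (by omega : 1 ≤ N))
    positivity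
  · filter_upwards [eventually_ge_atTop 2] with N hN
    have b2 : (2:ℝ) ≤ N := by exact_mod_cast hN
    have hl : 0 < Real.log (N:ℝ) := by linarith [log_half b2]
    have e1 := hC N hN
    calc (Real.log N) ^ K / N * |∑ n ∈ Icc 1 N, dd n| ≤
        (Real.log N) ^ K / N * (C * (N / (Real.log N) ^ (K + 1))) := by gcongr
      _ = C / Real.log N := by
          rw [pow_succ]
          field_simp

end Pool.Agent.N713.S2.PN
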